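import Pool.Agent.Y272.LC.Stm

/-!
Job COMB: periodic angles on both sides of `θ` whose orbits stay in the sector of `θ`.
The map `u ↦ d u` on the sector is extended to a continuous circle map of degree one which is
constant on the complement of the sector.
-/

set_option autoImplicit false

namespace Pool.Agent.Y25.LC

open Set Filter Topology Pool.Agent.Y272.LC

noncomputable def ps (d : ℕ) (t : ℝ) : ℝ := min (d * t) 1 - t

/-- the lift of the circle map -/
noncomputable def FF (d : ℕ) (θ l : ℝ) (u : ℝ) : ℝ := θ + ((u - l) + ps d (Int.fract (u - l)))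

theorem FF_cont {d : ℕ} (hd : 1 ≤ d) (θ l : ℝ) : Continuous (FF d θ l) := by
  have h0 : Continuous (ps d) := by
    unfold ps
    fun_prop
  have h1 : Continuous (ps d ∘ Int.fract) := by
    refine ContinuousOn.comp_fract'' h0.continuousOn ?_
    unfold ps
    have : (1 : ℝ) ≤ d := by exact_mod_cast hd
    rw [mul_zero, mul_one, min_eq_left (by norm_num : (0:ℝ) ≤ 1), min_eq_right this]
    norm_num
  have h2 : FF d θ l = fun u => θ + ((u - l) + (ps d ∘ Int.fract) (u - l)) := rfl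
  rw [h2]
  exact continuous_const.add ((continuous_id.sub continuous_const).add
    (h1.comp (continuous_id.sub continuous_const)))

theorem FF_add (d : ℕ) (θ l u : ℝ) (m : ℤ) : FF d θ l (u + m) = FF d θ l u + m := by
  unfold FF
  have h1 : u + (m : ℝ) - l = u - l + m := by ring
  rw [h1, Int.fract_add_intCast]
  ring

theorem FF_iter_add (d : ℕ) (θ l : ℝ) (k : ℕ) (u : ℝ) (m : ℤ) :
    (FF d θ l)^[k] (u + m) = (FF d θ l)^[k] u + m := by
  induction k with
  | zero => rfl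
  | succ k ih => rw [Function.iterate_succ_apply', ih, FF_add, Function.iterate_succ_apply']

theorem FF_J {d : ℕ} (hd : 1 ≤ d) {θ l u : ℝ} {i : ℤ} (hl : d * l = θ + i)
    (h : Int.fract (u - l) ≤ 1 / d) : ∃ m : ℤ, FF d θ l u = d * u - m := by
  have hd0 : (0 : ℝ) < d := by exact_mod_cast hd
  refine ⟨i + d * ⌊u - l⌋ - ⌊u - l⌋, ?_⟩
  unfold FF ps
  have h1 : (d : ℝ) * Int.fract (u - l) ≤ 1 := by
    rw [le_div_iff₀ hd0] at h
    linarith
  rw [min_eq_left h1]
  have h2 := Int.self_sub_floor (u - l)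
  push_cast
  rw [← h2]
  linear_combination -hl

theorem FF_gap {d : ℕ} (hd : 1 ≤ d) {θ l u : ℝ} (h : 1 / (d : ℝ) ≤ Int.fract (u - l)) :
    FF d θ l u = θ + (⌊u - l⌋ + 1 : ℤ) := by
  have hd0 : (0 : ℝ) < d := by exact_mod_cast hd
  unfold FF ps
  have h1 : 1 ≤ (d : ℝ) * Int.fract (u - l) := by
    rw [div_le_iff₀ hd0] at h
    linarith
  rw [min_eq_right h1]
  have h2 := Int.self_sub_floor (u - l)
  push_cast
  rw [← h2]
  ring

theorem FF_gap0 {d : ℕ} {θ l u : ℝ} (h : Int.fract (u - l) = 0) :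
    FF d θ l u = θ + (⌊u - l⌋ : ℤ) := by
  unfold FF ps
  have h2 := Int.self_sub_floor (u - l)
  rw [h, mul_zero, min_eq_left (by norm_num : (0:ℝ) ≤ 1)]
  rw [h] at h2
  linarith

theorem FF_closed_gap {d : ℕ} (hd : 1 ≤ d) {θ l u : ℝ}
    (h : ¬ (0 < Int.fract (u - l) ∧ Int.fract (u - l) < 1 / (d : ℝ))) :
    ∃ m : ℤ, FF d θ l u = θ + m := by
  rcases (Int.fract_nonneg (u - l)).eq_or_lt with h0 | h0
  · exact ⟨_, FF_gap0 h0.symm⟩
  · have : 1 / (d : ℝ) ≤ Int.fract (u - l) := by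
      by_contra hcon
      exact h ⟨h0, not_le.1 hcon⟩
    exact ⟨_, FF_gap hd this⟩

theorem FF_loc {d : ℕ} (hd : 1 ≤ d) {θ l u0 : ℝ} (h : 1 / (d : ℝ) < Int.fract (u0 - l)) :
    ∀ᶠ u in 𝓝 u0, FF d θ l u = FF d θ l u0 := by
  have hd0 : (0 : ℝ) < d := by exact_mod_cast hd
  have hdd : (0 : ℝ) < 1 / d := by positivity
  have h1 := Int.self_sub_floor (u0 - l)
  have h2 := Int.fract_lt_one (u0 - l)
  have hm : u0 ∈ Ioo ((⌊u0 - l⌋ : ℝ) + 1 / d + l) ((⌊u0 - l⌋ : ℝ) + 1 + l) := by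
    constructor <;> linarith
  filter_upwards [isOpen_Ioo.mem_nhds hm] with u hu
  have hfl : ⌊u - l⌋ = ⌊u0 - l⌋ := by
    rw [Int.floor_eq_iff]
    constructor
    · linarith [hu.1]
    · linarith [hu.2]
  have h3 := Int.self_sub_floor (u - l)
  rw [FF_gap hd h.le, FF_gap hd, hfl]
  rw [← h3, hfl]
  linarith [hu.1]

/-- the periodic point to the right of `θ` -/
theorem right_point {d : ℕ} {θ l : ℝ} {i : ℤ} (hd : 2 ≤ d) (hl : d * l = θ + i) (hlθ : l < θ)
    (hθr : θ < l + 1 / d)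
    (hex : ∃ n : ℕ, ∀ m : ℤ, (d : ℝ) ^ n * θ - m < l ∨ l + 1 / d < (d : ℝ) ^ n * θ - m) :
    ∃ (q : ℕ) (x : ℝ), 1 ≤ q ∧ (∃ m : ℤ, ((d : ℝ) ^ q - 1) * x = m) ∧ θ < x ∧ x < l + 1 / d ∧
      ∀ k : ℕ, ∃ m : ℤ, l < (d : ℝ) ^ k * x - m ∧ (d : ℝ) ^ k * x - m < l + 1 / d := by
  classical
  have hd1 : 1 ≤ d := by omega
  have hd0 : (0 : ℝ) < d := by exact_mod_cast hd1
  have hdr : (2 : ℝ) ≤ d := by exact_mod_cast hd
  have hinv : 1 / (d : ℝ) ≤ 1 / 2 := one_div_le_one_div_of_le (by norm_num) hdr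
  have hinv0 : 0 < 1 / (d : ℝ) := by positivity
  obtain ⟨F, hF⟩ : ∃ F : ℝ → ℝ, F = FF d θ l := ⟨_, rfl⟩
  have hFc : Continuous F := by rw [hF]; exact FF_cont hd1 θ l
  have hFk : ∀ k : ℕ, Continuous (F^[k]) := fun k => hFc.iterate k
  have hFa : ∀ (k : ℕ) (u : ℝ) (m : ℤ), F^[k] (u + m) = F^[k] u + m := by
    intro k u m
    rw [hF]
    exact FF_iter_add d θ l k u m
  -- local constancy
  have hloc : ∀ (s q : ℕ) (x : ℝ), s < q → 1 / (d : ℝ) < Int.fract (F^[s] x - l) →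
      ∀ᶠ u in 𝓝 x, F^[q] u = F^[q] x := by
    intro s q x hsq hx
    have h1 : ∀ᶠ w in 𝓝 (F^[s] x), F w = F (F^[s] x) := by
      rw [hF]
      rw [hF] at hx
      exact FF_loc hd1 hx
    have h2 := (hFk s).continuousAt.eventually h1
    have e : q = (q - s - 1) + (s + 1) := by omega
    have e' : ∀ w, F^[q] w = F^[q - s - 1] (F (F^[s] w)) := by
      intro w
      conv_lhs => rw [e, Function.iterate_add_apply, Function.iterate_succ_apply']
    filter_upwards [h2] with u hu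
    rw [e', e', hu]
  -- the orbit of `θ`
  obtain ⟨n, hn⟩ : ∃ n, n = Nat.find hex := ⟨_, rfl⟩
  have hn1 : ∀ m : ℤ, (d : ℝ) ^ n * θ - m < l ∨ l + 1 / d < (d : ℝ) ^ n * θ - m := by
    rw [hn]
    exact Nat.find_spec hex
  have hn2 : ∀ j < n, Int.fract ((d : ℝ) ^ j * θ - l) ≤ 1 / d := by
    intro j hj
    have h1 := Nat.find_min hex (m := j) (by omega)
    push Not at h1
    obtain ⟨m, hm1, hm2⟩ := h1
    have h2 : Int.fract ((d : ℝ) ^ j * θ - l) = (d : ℝ) ^ j * θ - l - m := by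
      rw [Int.fract_eq_iff]
      refine ⟨by linarith, by linarith, m, by ring⟩
    rw [h2]
    linarith
  have horb : ∀ j ≤ n, ∃ m : ℤ, F^[j] θ = (d : ℝ) ^ j * θ - m := by
    intro j
    induction j with
    | zero => intro _; exact ⟨0, by simp⟩
    | succ j ih =>
      intro hj
      obtain ⟨m, hm⟩ := ih (by omega)
      obtain ⟨m', hm'⟩ := FF_J hd1 hl (hn2 j (by omega))
      refine ⟨m' + m, ?_⟩
      have h1 : F^[1] ((d : ℝ) ^ j * θ + ((-m : ℤ) : ℝ)) = F^[1] ((d : ℝ) ^ j * θ) + ((-m : ℤ) : ℝ) :=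
        hFa 1 _ _
      rw [Function.iterate_one, hF, hm'] at h1
      rw [Function.iterate_succ_apply', hm, hF]
      push_cast at h1 ⊢
      rw [sub_eq_add_neg, h1]
      ring
  obtain ⟨mn, hmn⟩ := horb n le_rfl
  have hfn : 1 / (d : ℝ) < Int.fract ((d : ℝ) ^ n * θ - l) := by
    have h1 := Int.self_sub_floor ((d : ℝ) ^ n * θ - l)
    have h2 := Int.fract_nonneg ((d : ℝ) ^ n * θ - l)
    rcases hn1 ⌊(d : ℝ) ^ n * θ - l⌋ with h | h
    · linarith
    · linarith
  have hfn' : 1 / (d : ℝ) < Int.fract (F^[n] θ - l) := by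
    rw [hmn]
    have : (d : ℝ) ^ n * θ - mn - l = (d : ℝ) ^ n * θ - l - mn := by ring
    rw [this, Int.fract_sub_intCast]
    exact hfn
  obtain ⟨q, hq⟩ : ∃ q, q = n + 1 := ⟨_, rfl⟩
  obtain ⟨p, hp⟩ : ∃ p : ℤ, F^[q] θ = θ + p := by
    rw [hq, Function.iterate_succ_apply']
    have : F (F^[n] θ) = FF d θ l (F^[n] θ) := by rw [hF]
    rw [this]
    exact ⟨_, FF_gap hd1 hfn'.le⟩
  -- the set
  obtain ⟨A, hA⟩ : ∃ A : Set ℝ, A = {u | θ < u ∧ u ≤ F^[q] u - p} := ⟨_, rfl⟩
  obtain ⟨δ, hδ, hAδ⟩ : ∃ δ : ℝ, 0 < δ ∧ ∀ u ∈ A, θ + δ ≤ u := by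
    have h1 := hloc n q θ (by omega) hfn'
    rw [Metric.eventually_nhds_iff] at h1
    obtain ⟨δ, hδ, h2⟩ := h1
    refine ⟨δ, hδ, fun u hu => ?_⟩
    rw [hA] at hu
    obtain ⟨hu1, hu2⟩ := hu
    by_contra hcon
    have h3 := @h2 u (by rw [Real.dist_eq, abs_of_pos (by linarith)]; linarith)
    rw [h3, hp] at hu2
    linarith
  have hAcl : IsClosed A := by
    have h1 : A = {u | θ + δ ≤ u} ∩ {u | u ≤ F^[q] u - p} := by
      ext u
      constructor
      · intro hu
        have h2 := hAδ u hu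
        rw [hA] at hu
        exact ⟨h2, hu.2⟩
      · rintro ⟨h2, h3⟩
        rw [hA]
        have h2' : θ + δ ≤ u := h2
        exact ⟨by linarith, h3⟩
    rw [h1]
    exact (isClosed_le continuous_const continuous_id).inter
      (isClosed_le continuous_id ((hFk q).sub continuous_const))
  -- a point of `A` in the gap
  obtain ⟨v, hv1, hv2, hvA⟩ : ∃ v : ℝ, l + 1 / d < v ∧ v < l + 1 ∧ v ∈ A := by
    have h1 := Int.self_sub_floor (F^[n] θ - l)
    have h2 := Int.fract_lt_one (F^[n] θ - l)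
    refine ⟨F^[n] θ + ((-⌊F^[n] θ - l⌋ : ℤ) : ℝ), ?_, ?_, ?_⟩
    · push_cast
      linarith
    · push_cast
      linarith
    · rw [hA]
      refine ⟨?_, ?_⟩
      · push_cast
        linarith
      · rw [hFa, ← Function.iterate_add_apply, add_comm q n, Function.iterate_add_apply, hp, hFa]
        linarith
  have hAbdd : BddBelow A := ⟨θ, fun u hu => by have := hAδ u hu; linarith⟩
  obtain ⟨x, hx⟩ : ∃ x, x = sInf A := ⟨_, rfl⟩
  have hxA : x ∈ A := by
    rw [hx]
    exact hAcl.csInf_mem ⟨v, hvA⟩ hAbdd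
  have hxv : x ≤ v := by
    rw [hx]
    exact csInf_le hAbdd hvA
  have hxδ := hAδ x hxA
  have hleft : ∀ u, θ < u → u < x → F^[q] u - p < u := by
    intro u hu1 hu2
    by_contra hcon
    have : u ∈ A := by
      rw [hA]
      exact ⟨hu1, not_lt.1 hcon⟩
    have := csInf_le hAbdd this
    rw [← hx] at this
    linarith
  have hfreq : ∀ P : ℝ → Prop, (∀ᶠ u in 𝓝 x, P u) → ∃ u, θ < u ∧ u < x ∧ P u := by
    intro P hP
    rw [Metric.eventually_nhds_iff] at hP
    obtain ⟨ε, hε, h2⟩ := hP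
    obtain ⟨e, he⟩ : ∃ e : ℝ, e = min (ε / 2) (δ / 2) := ⟨_, rfl⟩
    have he0 : 0 < e := by rw [he]; exact lt_min (by linarith) (by linarith)
    have he1 : e ≤ ε / 2 := by rw [he]; exact min_le_left _ _
    have he2 : e ≤ δ / 2 := by rw [he]; exact min_le_right _ _
    refine ⟨x - e, by linarith, by linarith, @h2 _ ?_⟩
    rw [Real.dist_eq, sub_sub_cancel_left, abs_neg, abs_of_pos he0]
    linarith
  have hGx : F^[q] x = x + p := by
    apply le_antisymm
    · by_contra hcon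
      push Not at hcon
      have h1 : ∀ᶠ u in 𝓝 x, 0 < F^[q] u - u - p := by
        have hc : Continuous (fun u => F^[q] u - u - p) :=
          ((hFk q).sub continuous_id).sub continuous_const
        exact hc.continuousAt.eventually (lt_mem_nhds (by linarith))
      obtain ⟨u, hu1, hu2, hu3⟩ := hfreq _ h1
      have := hleft u hu1 hu2
      linarith
    · rw [hA] at hxA
      have := hxA.2
      linarith
  -- the orbit avoids the open gap
  have hopen : ∀ s : ℕ, ¬ 1 / (d : ℝ) < Int.fract (F^[s] x - l) := by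
    by_contra hcon
    push Not at hcon
    obtain ⟨s, hs⟩ : ∃ s, s = Nat.find hcon := ⟨_, rfl⟩
    have hs1 : 1 / (d : ℝ) < Int.fract (F^[s] x - l) := by
      rw [hs]
      exact Nat.find_spec hcon
    have hsq : s < q := by
      by_contra hge
      have h1 := Nat.find_min hcon (m := s - q) (by omega)
      apply h1
      have h2 : F^[s] x = F^[s - q] x + p := by
        have e : s = (s - q) + q := by omega
        conv_lhs => rw [e, Function.iterate_add_apply, hGx, hFa]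
      rw [h2] at hs1
      have h3 : F^[s - q] x + p - l = F^[s - q] x - l + p := by ring
      rwa [h3, Int.fract_add_intCast] at hs1
    obtain ⟨u, hu1, hu2, hu3⟩ := hfreq _ (hloc s q x hsq hs1)
    have := hleft u hu1 hu2
    rw [hu3, hGx] at this
    linarith
  -- the orbit avoids the closed gap
  have hJ : ∀ k : ℕ, 0 < Int.fract (F^[k] x - l) ∧ Int.fract (F^[k] x - l) < 1 / (d : ℝ) := by
    intro k
    by_contra hcon
    obtain ⟨m, hm⟩ := FF_closed_gap (θ := θ) hd1 hcon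
    apply hopen (n + (k + 1))
    have h1 : F^[n + (k + 1)] x = F^[n] θ + m := by
      rw [Function.iterate_add_apply, Function.iterate_succ_apply']
      have : F (F^[k] x) = θ + m := by
        rw [← hm]
        rw [hF]
      rw [this, hFa]
    rw [h1]
    have h3 : F^[n] θ + m - l = F^[n] θ - l + m := by ring
    rw [h3, Int.fract_add_intCast]
    exact hfn'
  have hiter : ∀ k : ℕ, ∃ m : ℤ, F^[k] x = (d : ℝ) ^ k * x - m := by
    intro k
    induction k with
    | zero => exact ⟨0, by simp⟩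
    | succ k ih =>
      obtain ⟨m, hm⟩ := ih
      obtain ⟨m', hm'⟩ := FF_J hd1 hl (hJ k).2.le
      refine ⟨d * m + m', ?_⟩
      rw [Function.iterate_succ_apply']
      have : F (F^[k] x) = FF d θ l (F^[k] x) := by rw [hF]
      rw [this, hm', hm]
      push_cast
      ring
  refine ⟨q, x, by omega, ?_, by linarith, ?_, ?_⟩
  · obtain ⟨m, hm⟩ := hiter q
    refine ⟨m + p, ?_⟩
    push_cast
    linarith
  · have h1 := (hJ 0).2
    rw [Function.iterate_zero_apply] at h1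
    have h2 : Int.fract (x - l) = x - l := by
      rw [Int.fract_eq_self]
      constructor <;> linarith
    rw [h2] at h1
    linarith
  · intro k
    obtain ⟨m, hm⟩ := hiter k
    obtain ⟨h1, h2⟩ := hJ k
    rw [← Int.self_sub_floor, hm] at h1 h2
    refine ⟨m + ⌊(d : ℝ) ^ k * x - m - l⌋, ?_, ?_⟩
    · push_cast
      linarith
    · push_cast
      linarith

theorem pow_mul_sub {d q q' : ℕ} {x : ℝ} {m : ℤ} (h : ((d : ℝ) ^ q - 1) * x = m) :
    ∃ m' : ℤ, ((d : ℝ) ^ (q * q') - 1) * x = m' := by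
  obtain ⟨c, hc⟩ := sub_dvd_pow_sub_pow ((d : ℤ) ^ q) 1 q'
  rw [one_pow, ← pow_mul] at hc
  refine ⟨m * c, ?_⟩
  have h1 : ((d : ℝ) ^ (q * q') - 1) = ((d : ℝ) ^ q - 1) * c := by exact_mod_cast hc
  rw [h1]
  push_cast
  rw [← h]
  ring

theorem comb : St_Comb := by
  intro d θ i hd hθ0 hθ1 h1 h2 hex _
  have hd1 : 1 ≤ d := by omega
  have hd0 : (0 : ℝ) < d := by exact_mod_cast hd1
  have er : (θ + i + 1) / d = (θ + i) / d + 1 / d := by ring
  have hl : (d : ℝ) * ((θ + i) / d) = θ + i := by field_simp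
  have hlt : (θ + i) / d < θ := by
    rw [div_lt_iff₀ hd0]
    linarith
  have hgt : θ < (θ + i + 1) / d := by
    rw [lt_div_iff₀ hd0]
    linarith
  obtain ⟨q, x, hq, ⟨mq, hmq⟩, hx1, hx2, hxJ⟩ := right_point hd hl hlt (by rw [← er]; exact hgt)
    (by rw [← er]; exact hex)
  -- the reflected data
  obtain ⟨θ', hθ'⟩ : ∃ θ' : ℝ, θ' = 1 - θ := ⟨_, rfl⟩
  obtain ⟨i', hi'⟩ : ∃ i' : ℤ, i' = d - i - 2 := ⟨_, rfl⟩
  have el' : (θ' + i') / d = 1 - (θ + i + 1) / d := by
    rw [hθ', hi']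
    push_cast
    field_simp
    ring
  have er' : (θ' + i') / d + 1 / d = 1 - (θ + i) / d := by
    rw [el', er]
    ring
  obtain ⟨q', x', hq', ⟨mq', hmq'⟩, hx1', hx2', hxJ'⟩ := right_point (θ := θ') (l := (θ' + i') / d)
    (i := i') hd (by field_simp) (by rw [el', hθ']; linarith) (by rw [er', hθ']; linarith) (by
      obtain ⟨n, hn⟩ := hex
      refine ⟨n, fun m => ?_⟩
      rw [er', el', hθ']
      have := hn (d ^ n - m - 1)
      push_cast at this
      rcases this with h | h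
      · right
        linarith
      · left
        linarith)
  rw [er'] at hx2'
  refine ⟨q * q', 1 - x', x, Nat.mul_pos hq hq', ?_, ?_, by linarith, by linarith, hx1,
    by rw [er]; exact hx2, ?_, ?_⟩
  · obtain ⟨m', hm'⟩ := pow_mul_sub (q' := q) hmq'
    refine ⟨d ^ (q' * q) - 1 - m', ?_⟩
    rw [mul_comm q q']
    push_cast
    linarith
  · exact pow_mul_sub hmq
  · intro k
    obtain ⟨m, hm1, hm2⟩ := hxJ' k
    rw [el'] at hm1
    rw [er'] at hm2
    refine ⟨d ^ k - m - 1, ?_, ?_⟩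
    · push_cast
      linarith
    · push_cast
      linarith
  · intro k
    rw [er]
    exact hxJ k

end Pool.Agent.Y25.LC
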